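import Pool.Agent.W85.WD.Bun
import Pool.Agent.TH188.WQ.Defs

/-! # The projective line bundle of a normal form, relative version

Adapted from `Pool.Agent.W85.WD.Bun`. -/

set_option autoImplicit false
set_option linter.unusedVariables false
set_option linter.unusedSectionVars false

universe u

open Polynomial Pool.Agent.W558 Pool.Agent.W498.Tor Pool.Agent.W85.WD

namespace Pool.Agent.TH715.WQ

theorem main (hnorm : WD_norm.{u}) : Pool.Agent.TH188.WQ.WQ_bun.{u} := by
  classical
  intro p _ k L N _ _ _ _ _ _ _ _ T I G _ _ M f n a h g Γ hN hF hFn hnp Z hZ hNf Q hQ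
  have hp : p.Prime := Fact.out
  have hpz : (0 : ℤ) < (p : ℤ) := by exact_mod_cast hp.pos
  have hcN : CharP N p := charP_of_injective_algebraMap (algebraMap k N).injective p
  let m : I → ℤ := fun i => n i / (p : ℤ)
  let r : I → ℤ := fun i => n i % (p : ℤ)
  let y : T → N := fun t => yc Z (a t) (XM M m t)
  have hX : ∀ t, XM M m t ≠ 0 := XM_ne M m
  have hXN : ∀ t, algebraMap L N (XM M m t) ≠ 0 := fun t => (_root_.map_ne_zero _).2 (hX t)
  have hZa : ∀ b : L, Z - algebraMap L N b ≠ 0 := by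
    intro b h0
    apply hZ
    rw [sub_eq_zero.1 h0]
    exact isAlgebraic_algebraMap b
  have hy0 : ∀ t, y t ≠ 0 := fun t => div_ne_zero (hZa _) (hXN t)
  have hXy : ∀ t, algebraMap L N (XM M m t) * y t = Z - algebraMap L N (a t) := fun t =>
    mul_div_cancel₀ _ (hXN t)
  have htrL : ∀ t, Transcendental L (y t) := fun t => transcendental_yc hZ (hX t)
  obtain ⟨N0, hG⟩ := exists_BD (mapLM (K := N) M) (y := y) hy0
    (fun t => tr_of_transcendental (htrL t))
    (fun t t' => algebraMap L N (XM M m t / XM M m t'))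
    (fun t t' => algebraMap L N ((XM M m t / XM M m t') * ((a t - a t') / XM M m t)))
    (by
      intro t t'
      have h1 := hXN t
      have h2 := hXN t'
      change (Z - algebraMap L N (a t')) / algebraMap L N (XM M m t') =
        algebraMap L N (XM M m t / XM M m t') *
          ((Z - algebraMap L N (a t)) / algebraMap L N (XM M m t)) + _
      rw [map_mul, map_div₀, map_div₀, map_sub]
      field_simp
      ring)
    (fun t t' => map_BB2 M (XM_div_mem M m t t').2)
    (fun t t' => map_BB2 M (Subalgebra.mul_mem _ (XM_div_mem M m t t').2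
      (delta_mem M hnorm hF hN t t')))
  -- membership in `Q`
  have hnd : ∀ P' : L[X], P' ≠ 0 → P'.natDegree < p → ¬ ((X ^ p - C f : L[X]) ∣ P') := by
    intro P' h0 hd hdvd
    have := Polynomial.natDegree_le_of_dvd hdvd h0
    rw [natDegree_X_pow_sub_C] at this
    omega
  have hnd1 : ¬ ((X ^ p - C f : L[X]) ∣ 1) := hnd 1 one_ne_zero (by
    rw [natDegree_one]; exact hp.pos)
  have hQL : ∀ l : L, algebraMap L N l ∈ Q := fun l => (hQ _).2 ⟨C l, 1, hnd1, by simp⟩
  have hQZ : Z ∈ Q := (hQ _).2 ⟨X, 1, hnd1, by simp⟩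
  have hQi : ∀ b : L, (Z - algebraMap L N b)⁻¹ ∈ Q := fun b => (hQ _).2 ⟨1, X - C b,
    hnd _ (X_sub_C_ne_zero b) (by rw [natDegree_X_sub_C]; exact hp.one_lt), by
      rw [map_sub, aeval_X, aeval_C, map_one, inv_mul_cancel₀ (hZa b)]⟩
  have hyQ : ∀ t, y t ∈ Q := by
    intro t
    change (Z - algebraMap L N (a t)) / algebraMap L N (XM M m t) ∈ Q
    rw [div_eq_mul_inv, ← map_inv₀]
    exact Q.mul_mem (Q.sub_mem hQZ (hQL _)) (hQL _)
  have hyQ' : ∀ t, (y t)⁻¹ ∈ Q := by
    intro t
    change ((Z - algebraMap L N (a t)) / algebraMap L N (XM M m t))⁻¹ ∈ Q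
    rw [inv_div, div_eq_mul_inv]
    exact Q.mul_mem (hQL _) (hQi _)
  have hzQ : ∀ t b, zz (y t) b ∈ Q ∧ (zz (y t) b)⁻¹ ∈ Q := by
    intro t b
    cases b
    · exact ⟨hyQ' t, by
        change (y t)⁻¹⁻¹ ∈ Q
        rw [inv_inv]; exact hyQ t⟩
    · exact ⟨hyQ t, hyQ' t⟩
  refine ⟨T × Bool, Option I, inferInstance, inferInstance, bunLM (mapLM (K := N) M) hG,
    fun q => ly (y q.1) q.2, fun o => o.elim (p : ℤ) r,
    fun o => o.elim (-1) m, fun b o => o.elim 0 (Γ b), Prod.fst,
    fun o i0 => o.elim 0 (fun i => if i = i0 then 1 else 0),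
    ⟨?_, ?_, ?_, ?_, ?_, ?_, ?_, ?_, ?_⟩, ?_, ?_, ?_, ?_⟩
  · -- yA
    rintro ⟨t, b⟩
    cases b
    · exact Subalgebra.one_mem _
    · exact self_mem_adj _ _
  · rintro ⟨t, b⟩
    cases b
    · exact one_ne_zero
    · exact hy0 t
  · rintro ⟨t, b⟩
    exact le_adj _ _ (mem_map_em (hN.hA t))
  · rintro ⟨t, b⟩
    refine adj_le ?_ (hzQ t b).1
    rintro _ ⟨z, _, rfl⟩
    exact hQL z
  · rintro ⟨t, b⟩ (_ | i)
    · change (zf (y t) b)⁻¹⁻¹ ∈ Q
      rw [inv_inv]
      cases b
      · exact hyQ t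
      · exact Q.one_mem
    · change (algebraMap L N (M.x t i))⁻¹ ∈ Q
      rw [← map_inv₀]
      exact hQL _
  · rintro ⟨t, b⟩
    cases b
    · change (1 : N)⁻¹ ∈ Q
      rw [inv_one]
      exact Q.one_mem
    · exact hyQ' t
  · -- the equation
    rintro ⟨t, b⟩
    have hz := zf_ne (hy0 t) b
    have e1 : ∏ o, (bunLM (mapLM (K := N) M) hG).x (t, b) o ^
        ((p : ℤ) * (fun o : Option I => o.elim (-1) m) o) =
        zf (y t) b ^ p * algebraMap L N (XM M m t) ^ p := by
      refine (prod_lx _ _ _ _).trans ?_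
      congr 1
      · change (zf (y t) b)⁻¹ ^ ((p : ℤ) * (-1)) = _
        rw [inv_zpow', mul_neg_one, neg_neg, zpow_natCast]
      · rw [XM, map_prod, ← Finset.prod_pow]
        refine Finset.prod_congr rfl fun i _ => ?_
        change (algebraMap L N (M.x t i)) ^ ((p : ℤ) * m i) = _
        rw [map_zpow₀, ← zpow_natCast, ← zpow_mul, mul_comm]
    have e2 : ∏ o, (bunLM (mapLM (K := N) M) hG).x (t, b) o ^
        ((fun o : Option I => o.elim (p : ℤ) r) o) =
        (zf (y t) b ^ p)⁻¹ * algebraMap L N (XM M r t) := by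
      refine (prod_lx _ _ _ _).trans ?_
      congr 1
      · change (zf (y t) b)⁻¹ ^ (p : ℤ) = _
        rw [zpow_natCast, inv_pow]
      · rw [XM, map_prod]
        refine Finset.prod_congr rfl fun i _ => ?_
        change (algebraMap L N (M.x t i)) ^ r i = _
        rw [map_zpow₀]
    rw [e1, e2]
    have h1 := hN.eq t
    rw [prod_split (p := p) _ (M.x0 t)] at h1
    change f = a t ^ p + XM M m t ^ p * XM M r t * h t at h1
    have h2 : zf (y t) b ^ p * ly (y t) b ^ p = y t ^ p := by
      rw [← mul_pow, zf_mul_ly]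
    have h3 : algebraMap L N (XM M m t) ^ p * y t ^ p = Z ^ p - algebraMap L N (a t) ^ p := by
      rw [← mul_pow, hXy, sub_pow_char]
    have h4 : zf (y t) b ^ p * (zf (y t) b ^ p)⁻¹ = 1 := mul_inv_cancel₀ (pow_ne_zero _ hz)
    change Z ^ p - algebraMap L N f = zf (y t) b ^ p * algebraMap L N (XM M m t) ^ p *
      (ly (y t) b ^ p - (zf (y t) b ^ p)⁻¹ * algebraMap L N (XM M r t) * algebraMap L N (h t))
    rw [h1, map_add, map_mul, map_mul, map_pow, map_pow]
    linear_combination -h3 - algebraMap L N (XM M m t) ^ p * h2 +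
      algebraMap L N (XM M m t) ^ p * algebraMap L N (XM M r t) * algebraMap L N (h t) * h4
  · rintro ⟨t, b⟩
    exact snc_ox ((mapLM (K := N) M).xA t) ((mapLM (K := N) M).snc t) (hy0 t) b
      ((hG.tr t).zz (hy0 t) b)
  · -- logarithmic tangent vectors
    rintro ⟨t, b⟩ κ _ _ φ
    let φ1 : M.A t →ₐ[k] κ := (AlgHom.comp φ (Subalgebra.inclusion (le_adj
      ((M.A t).map (em k L N)) (zz (y t) b)))).comp (eqv (K := N) (M.A t)).toAlgHom
    obtain ⟨v, hv⟩ := hN.ln t κ φ1
    obtain ⟨E, hE1, hE2⟩ := lift_TV ((hG.tr t).zz (hy0 t) b) φ φ1 (fun _ => rfl) v.D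
    have hE0 : ∀ z (hz : z ∈ adj ((M.A t).map (em k L N)) (zz (y t) b)), z = 1 →
        E.D ⟨z, hz⟩ = 0 := by
      rintro z hz rfl
      exact E.D_one
    have hcK : CharP κ p := charP_of_injective_algebraMap (algebraMap k κ).injective p
    have hr : ∀ i, ((r i : ℤ) : κ) = (n i : κ) := by
      intro i
      have h1 : n i = (p : ℤ) * m i + r i := (Int.mul_ediv_add_emod _ _).symm
      rw [h1]
      push_cast
      rw [CharP.cast_eq_zero, zero_mul, zero_add]
    refine ⟨⟨E, fun o => o.elim 0 (fun o => o.elim 0 v.e), ?_⟩, ?_⟩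
    · rintro (_ | _ | i) ho
      · change _ = _ * (0 : κ)
        rw [mul_zero]
        cases b
        · exact hE0 _ _ rfl
        · exact hE2 _
      · change _ = _ * (0 : κ)
        rw [mul_zero]
        cases b
        · exact hE2 _
        · exact hE0 _ _ inv_one
      · exact (hE1 (M.x t i) (M.xA t i) ho).trans (v.hx i (M.xA t i))
    · have e1 : E.D ⟨algebraMap L N (h t), le_adj _ _ (mem_map_em (hN.hA t))⟩ +
          φ ⟨algebraMap L N (h t), le_adj _ _ (mem_map_em (hN.hA t))⟩ *
            ∑ o : Option (Option I), (((o.elim 0 fun o => o.elim (p : ℤ) r : ℤ)) : κ) *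
              (o.elim 0 (fun o => o.elim 0 v.e) : κ) = om v n (hN.hA t) := by
        rw [Fintype.sum_option, Fintype.sum_option]
        simp only [Option.elim_none, Option.elim_some, mul_zero, zero_add]
        rw [Finset.sum_congr rfl fun i _ => by rw [hr i]]
        congr 1
        exact hE1 (h t) (hN.hA t) _
      intro h0
      apply hv
      rw [← e1]
      exact h0
  · -- fractions
    rintro ⟨t, b⟩ q hq
    change ∃ α ∈ adj ((M.A t).map (em k L N)) (zz (y t) b),
      ∃ β ∈ adj ((M.A t).map (em k L N)) (zz (y t) b), β ≠ 0 ∧ β⁻¹ ∈ Q ∧ q * β = α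
    set A' : Subalgebra k N := adj ((M.A t).map (em k L N)) (zz (y t) b)
    have hWL : ∀ l : L, Wf A' Q (algebraMap L N l) := by
      intro l
      obtain ⟨c, hc, d, hd, hd0, h1⟩ := hF t l
      refine ⟨algebraMap L N d, le_adj _ _ (mem_map_em hd), (_root_.map_ne_zero _).2 hd0, ?_, ?_⟩
      · rw [← map_inv₀]; exact hQL _
      · rw [← map_mul, h1, mul_comm, mul_assoc, inv_mul_cancel₀ hd0, mul_one]
        exact le_adj _ _ (mem_map_em hc)
    have hWy : Wf A' Q (y t) := by
      cases b
      · refine ⟨(y t)⁻¹, self_mem_adj _ _, inv_ne_zero (hy0 t), ?_, ?_⟩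
        · rw [inv_inv]; exact hyQ t
        · rw [inv_mul_cancel₀ (hy0 t)]
          exact A'.one_mem
      · refine ⟨1, A'.one_mem, one_ne_zero, ?_, ?_⟩
        · rw [inv_one]; exact Q.one_mem
        · rw [one_mul]
          exact self_mem_adj _ _
    have hWZ : Wf A' Q Z := by
      have e : Z = algebraMap L N (XM M m t) * y t + algebraMap L N (a t) := by
        rw [hXy, sub_add_cancel]
      rw [e]
      exact ((hWL _).mul hWy).add (hWL _)
    obtain ⟨P, P', hP', h1⟩ := (hQ q).1 hq
    obtain ⟨d, hd, hd0, hdi, h2⟩ := Wf.aeval hWL hWZ P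
    obtain ⟨e, he, he0, hei, h3⟩ := Wf.aeval hWL hWZ P'
    have hP0 : P' ≠ 0 := by
      rintro rfl
      exact hP' (dvd_zero _)
    have hZP : Polynomial.aeval Z P' ≠ 0 := fun h0 => hP0 (transcendental_iff.1 hZ _ h0)
    refine ⟨e * (d * Polynomial.aeval Z P), A'.mul_mem he h2,
      d * (e * Polynomial.aeval Z P'), A'.mul_mem hd h3,
      mul_ne_zero hd0 (mul_ne_zero he0 hZP), ?_, ?_⟩
    · rw [mul_inv, mul_inv]
      refine Q.mul_mem hdi (Q.mul_mem hei ((hQ _).2 ⟨1, P', hP', ?_⟩))
      rw [inv_mul_cancel₀ hZP, map_one]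
    · rw [← h1]; ring
  · rintro b ⟨t, c⟩
    obtain ⟨w, hw0, hw, hw', h1⟩ := hFn b t
    refine ⟨algebraMap L N w, (_root_.map_ne_zero _).2 hw0, le_adj _ _ (mem_map_em hw), ?_, ?_⟩
    · rw [← map_inv₀]
      exact le_adj _ _ (mem_map_em hw')
    · refine Eq.trans ?_ (congrArg _ (prod_lx _ _ _ _).symm)
      change algebraMap L N (g b) = algebraMap L N w *
        ((zf (y t) c)⁻¹ ^ (0 : ℤ) * ∏ i, (algebraMap L N (M.x t i)) ^ (Γ b i))
      rw [h1, map_mul, map_prod, zpow_zero, one_mul]
      congr 1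
      exact Finset.prod_congr rfl fun i _ => map_zpow₀ _ _ _
  · -- lifting of logarithmic tangent vectors
    have hle : ∀ t : T × Bool, ∀ a ∈ M.A t.1,
        algebraMap L N a ∈ (bunLM (mapLM (K := N) M) hG).A t := fun t a ha =>
      le_adj _ _ (mem_map_em ha)
    refine ⟨⟨hle, ?_, ?_⟩, ?_⟩
    · rintro ⟨t, b⟩ i0
      refine Eq.trans ?_ (prod_lx (fun i => algebraMap L N (M.x t i)) (y t) b
        (fun o : Option I => (o.elim 0 (fun i => if i = i0 then 1 else 0) : ℤ))).symm
      simp only [Option.elim_none, Option.elim_some, zpow_zero, one_mul]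
      rw [Finset.prod_eq_single i0]
      · simp
      · intro i _ hi
        simp [hi]
      · intro h0
        exact absurd (Finset.mem_univ _) h0
    · rintro (_ | i) i0
      · exact le_rfl
      · simp only [Option.elim_some]
        split_ifs
        · exact zero_le_one
        · exact le_rfl
    · rintro ⟨t, b⟩ κ _ _ φ v0
      obtain ⟨E, hE1, hE2⟩ := lift_TV ((hG.tr t).zz (hy0 t) b) φ (φ.comp (Pool.Agent.TH188.WQ.ci (hle (t, b))))
        (fun _ => rfl) v0.D
      have hE0 : ∀ z (hz : z ∈ adj ((M.A t).map (em k L N)) (zz (y t) b)), z = 1 →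
          E.D ⟨z, hz⟩ = 0 := by
        rintro z hz rfl
        exact E.D_one
      refine ⟨⟨E, fun o => o.elim 0 (fun o => o.elim 0 v0.e), ?_⟩, ?_, ?_⟩
      · rintro (_ | _ | i) ho
        · change _ = _ * (0 : κ)
          rw [mul_zero]
          cases b
          · exact hE0 _ _ rfl
          · exact hE2 _
        · change _ = _ * (0 : κ)
          rw [mul_zero]
          cases b
          · exact hE2 _
          · exact hE0 _ _ inv_one
        · exact (hE1 (M.x t i) (M.xA t i) ho).trans (v0.hx i (M.xA t i))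
      · intro a ha
        exact hE1 a ha _
      · intro i0
        rw [Fintype.sum_option]
        simp only [Option.elim_none, Option.elim_some, mul_zero, zero_add]
        rw [Finset.sum_eq_single i0]
        · simp
        · intro i _ hi
          simp [hi]
        · intro h0
          exact absurd (Finset.mem_univ _) h0
  · -- the exponents
    rintro (_ | i)
    · simp
    · simp only [Option.elim_some, ite_mul, one_mul, zero_mul, Finset.sum_ite_eq, Finset.mem_univ,
        if_true]
      change n i % (p : ℤ) + (p : ℤ) * (n i / (p : ℤ)) = n i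
      exact Int.emod_add_mul_ediv _ _

end Pool.Agent.TH715.WQ
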